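import Mathlib

/-!
Sums over permutations by inclusion and exclusion, and a recursion which evaluates them.
-/

set_option autoImplicit false

namespace Pool.Agent.Y500.POT

open Finset Equiv

variable {ι : Type*} [Fintype ι] [DecidableEq ι]

/-- alternating sum over the supersets of a set -/
theorem alt_superset (R : Finset ι) :
    ∑ s : Finset ι, (if R ⊆ s then (-1 : ℤ) ^ s.card else 0) =
      if R = univ then (-1) ^ Fintype.card ι else 0 := by
  rw [← Finset.sum_filter]
  have h : ∑ s ∈ univ.filter (fun s => R ⊆ s), (-1 : ℤ) ^ s.card =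
      ∑ t ∈ (Rᶜ).powerset, (-1 : ℤ) ^ R.card * (-1) ^ t.card := by
    refine Finset.sum_bij' (fun s _ => s \ R) (fun t _ => R ∪ t) ?_ ?_ ?_ ?_ ?_
    · intro s hs
      rw [Finset.mem_powerset]
      intro x hx
      rw [Finset.mem_compl]
      exact (Finset.mem_sdiff.mp hx).2
    · intro t _
      simp
    · intro s hs
      have hs' := (Finset.mem_filter.mp hs).2
      exact Finset.union_sdiff_of_subset hs'
    · intro t ht
      have ht' := Finset.mem_powerset.mp ht
      ext x
      simp only [Finset.mem_sdiff, Finset.mem_union]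
      constructor
      · rintro ⟨h | h, h2⟩
        · exact absurd h h2
        · exact h
      · intro h
        exact ⟨Or.inr h, Finset.mem_compl.mp (ht' h)⟩
    · intro s hs
      have hs' := (Finset.mem_filter.mp hs).2
      rw [← pow_add, add_comm, Finset.card_sdiff_add_card_eq_card hs']
  rw [h, ← Finset.mul_sum, Finset.sum_powerset_neg_one_pow_card]
  by_cases hR : R = univ
  · rw [if_pos hR, hR]
    simp
  · rw [if_neg hR, if_neg, mul_zero]
    intro h2
    apply hR
    rw [← compl_compl R, h2]
    simp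

/-- sums over permutations by inclusion and exclusion -/
theorem sum_perm (G : (ι → ι) → ℤ) :
    ∑ τ : Perm ι, G τ = (-1) ^ Fintype.card ι *
      ∑ s : Finset ι, (-1) ^ s.card * ∑ g ∈ Fintype.piFinset (fun _ : ι => s), G g := by
  have h1 : ∀ s : Finset ι, (-1 : ℤ) ^ s.card * ∑ g ∈ Fintype.piFinset (fun _ : ι => s), G g =
      ∑ g : ι → ι, (if Finset.image g univ ⊆ s then (-1 : ℤ) ^ s.card else 0) * G g := by
    intro s
    have h2 : Fintype.piFinset (fun _ : ι => s) =
        univ.filter (fun g : ι → ι => Finset.image g univ ⊆ s) := by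
      ext g
      simp only [Fintype.mem_piFinset, Finset.mem_filter, Finset.mem_univ, true_and]
      rw [Finset.image_subset_iff]
      simp
    rw [h2, Finset.sum_filter, Finset.mul_sum]
    refine Finset.sum_congr rfl fun g _ => ?_
    split_ifs <;> ring
  simp only [h1]
  rw [Finset.sum_comm]
  simp only [← Finset.sum_mul, alt_superset]
  have h3 : ∀ g : ι → ι, (if Finset.image g univ = univ then (-1 : ℤ) ^ Fintype.card ι else 0) * G g
      = if Function.Bijective g then (-1 : ℤ) ^ Fintype.card ι * G g else 0 := by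
    intro g
    by_cases hg : Function.Bijective g
    · rw [if_pos hg, if_pos]
      exact Finset.image_univ_of_surjective hg.2
    · rw [if_neg hg, if_neg, zero_mul]
      intro h
      apply hg
      rw [← Finite.surjective_iff_bijective]
      intro x
      have : x ∈ Finset.image g univ := by rw [h]; exact Finset.mem_univ _
      obtain ⟨y, -, hy⟩ := Finset.mem_image.mp this
      exact ⟨y, hy⟩
  simp only [h3]
  rw [← Finset.sum_filter, ← Finset.mul_sum, ← mul_assoc, ← pow_add, ← two_mul, pow_mul]
  simp only [even_two, Even.neg_pow, one_pow, one_mul]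
  refine Finset.sum_bij (fun τ _ => (τ : ι → ι)) ?_ ?_ ?_ ?_
  · intro τ _
    simp
  · intro a _ b _ h
    exact Equiv.coe_fn_injective h
  · intro g hg
    have hg' := (Finset.mem_filter.mp hg).2
    exact ⟨Equiv.ofBijective g hg', Finset.mem_univ _, rfl⟩
  · intro τ _
    rfl

/-- the recursion -/
def recL {ι N : Type*} [AddCommMonoid N] (c : ι → N) (L : N → ℤ) : List ι → N → ℤ
  | [], acc => L acc
  | j :: l, acc => recL c L l acc - recL c L l (acc + c j)

theorem recL_eq {ι N : Type*} [DecidableEq ι] [AddCommMonoid N] (c : ι → N) (L : N → ℤ)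
    (l : List ι) (hl : l.Nodup) (acc : N) :
    recL c L l acc = ∑ s ∈ l.toFinset.powerset, (-1) ^ s.card * L (acc + ∑ j ∈ s, c j) := by
  induction l generalizing acc with
  | nil => simp [recL]
  | cons j l ih =>
    have hj : j ∉ l.toFinset := by
      rw [List.mem_toFinset]
      exact (List.nodup_cons.mp hl).1
    have hl' := (List.nodup_cons.mp hl).2
    rw [recL, ih hl', ih hl', List.toFinset_cons, Finset.sum_powerset_insert hj, sub_eq_add_neg,
      ← Finset.sum_neg_distrib]
    congr 1
    refine Finset.sum_congr rfl fun s hs => ?_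
    have hjs : j ∉ s := fun h => hj (Finset.mem_powerset.mp hs h)
    rw [Finset.card_insert_of_notMem hjs, Finset.sum_insert hjs, pow_succ, add_assoc]
    ring

theorem recL_univ {ι N : Type*} [Fintype ι] [DecidableEq ι] [AddCommMonoid N] (c : ι → N)
    (L : N → ℤ) (l : List ι) (hl : l.Nodup) (hu : l.toFinset = univ) :
    recL c L l 0 = ∑ s : Finset ι, (-1) ^ s.card * L (∑ j ∈ s, c j) := by
  rw [recL_eq c L l hl, hu, Finset.powerset_univ]
  simp

/-- Ryser's formula for the permanent of a Gram matrix -/
theorem perm_gram {κ : Type*} [Fintype κ] (v : ι → κ → ℤ) (l : List ι) (hl : l.Nodup)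
    (hu : l.toFinset = univ) :
    (Matrix.of fun i j => ∑ a, v i a * v j a).permanent =
      (-1) ^ Fintype.card ι * recL v (fun x => ∏ i, ∑ a, v i a * x a) l 0 := by
  rw [recL_univ _ _ l hl hu, Matrix.permanent, sum_perm
    (fun g : ι → ι => ∏ i, (Matrix.of fun i j => ∑ a, v i a * v j a) (g i) i)]
  congr 1
  refine Finset.sum_congr rfl fun s _ => ?_
  congr 1
  simp only [Matrix.of_apply]
  refine (Finset.prod_univ_sum (fun _ : ι => s) (fun i j => ∑ a, v j a * v i a)).symm.trans ?_
  refine Finset.prod_congr rfl fun i _ => ?_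
  rw [Finset.sum_comm]
  refine Finset.sum_congr rfl fun a _ => ?_
  rw [Finset.sum_apply, Finset.mul_sum]
  exact Finset.sum_congr rfl fun j _ => mul_comm _ _

omit [Fintype ι] [DecidableEq ι] in
/-- Cauchy–Binet type identity -/
theorem sum_det_sq {m : ℕ} (v : ι → Fin m → ℤ) (s : Finset ι) :
    ∑ u ∈ Fintype.piFinset (fun _ : Fin m => s), (Matrix.of fun k => v (u k)).det ^ 2 =
      m.factorial * (Matrix.of fun a b => ∑ i ∈ s, v i a * v i b).det := by
  have h1 : ∀ u : Fin m → ι, (Matrix.of fun k => v (u k)).det ^ 2 =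
      ∑ σ : Perm (Fin m), ∑ τ : Perm (Fin m), ((Perm.sign σ : ℤ) * (Perm.sign τ : ℤ)) *
        ∏ k, (v (u k) (σ k) * v (u k) (τ k)) := by
    intro u
    rw [pow_two, ← Matrix.det_transpose, Matrix.det_apply', Finset.sum_mul_sum]
    refine Finset.sum_congr rfl fun σ _ => Finset.sum_congr rfl fun τ _ => ?_
    simp only [Matrix.transpose_apply, Matrix.of_apply, Finset.prod_mul_distrib, Int.cast_id]
    ring
  simp only [h1]
  rw [Finset.sum_comm]
  have h2 : ∀ σ : Perm (Fin m), ∑ u ∈ Fintype.piFinset (fun _ : Fin m => s),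
      ∑ τ : Perm (Fin m), ((Perm.sign σ : ℤ) * (Perm.sign τ : ℤ)) *
        ∏ k, (v (u k) (σ k) * v (u k) (τ k)) =
      (Matrix.of fun a b => ∑ i ∈ s, v i a * v i b).det := by
    intro σ
    rw [Finset.sum_comm]
    have h3 : ∀ τ : Perm (Fin m), ∑ u ∈ Fintype.piFinset (fun _ : Fin m => s),
        ((Perm.sign σ : ℤ) * (Perm.sign τ : ℤ)) * ∏ k, (v (u k) (σ k) * v (u k) (τ k)) =
        (Perm.sign σ : ℤ) * ((Perm.sign τ : ℤ) * ∏ k,
          (Matrix.of fun a b => ∑ i ∈ s, v i a * v i b) (σ k) (τ k)) := by
      intro τ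
      rw [← Finset.mul_sum, mul_assoc]
      congr 2
      simp only [Matrix.of_apply]
      rw [Finset.prod_univ_sum]
    simp only [h3]
    rw [← Finset.mul_sum]
    have h4 := Matrix.det_permute σ (Matrix.of fun a b => ∑ i ∈ s, v i a * v i b)
    have h5 : ((Matrix.of fun a b => ∑ i ∈ s, v i a * v i b).submatrix σ id).det =
        ∑ τ : Perm (Fin m), ((Perm.sign τ : ℤ) * ∏ k,
          (Matrix.of fun a b => ∑ i ∈ s, v i a * v i b) (σ k) (τ k)) := by
      rw [← Matrix.det_transpose, Matrix.det_apply']
      refine Finset.sum_congr rfl fun τ _ => ?_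
      simp
    rw [← h5, h4, ← mul_assoc]
    have h6 : (Perm.sign σ : ℤ) * ((Perm.sign σ : ℤˣ) : ℤ) = 1 := by
      rw [← Units.val_mul, Int.units_mul_self, Units.val_one]
    simp only [Int.cast_id]
    rw [h6, one_mul]
  simp only [h2]
  rw [Finset.sum_const, Finset.card_univ, Fintype.card_perm, Fintype.card_fin, nsmul_eq_mul]

/-- the sum of squares of the block determinants over all permutations -/
theorem sum_block {m : ℕ} {κ : Type*} [Fintype κ] [DecidableEq κ]
    (v : κ × Fin m → Fin m → ℤ) (l : List (κ × Fin m)) (hl : l.Nodup)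
    (hu : l.toFinset = univ) :
    ∑ τ : Perm (κ × Fin m), ∏ t, (Matrix.of fun k => v (τ (t, k))).det ^ 2 =
      (-1) ^ Fintype.card (κ × Fin m) *
        recL (fun i => (fun a b => v i a * v i b : Fin m → Fin m → ℤ))
          (fun x => (m.factorial * (Matrix.of x).det) ^ Fintype.card κ) l 0 := by
  rw [recL_univ _ _ l hl hu, sum_perm
    (fun g : κ × Fin m → κ × Fin m => ∏ t, (Matrix.of fun k => v (g (t, k))).det ^ 2)]
  congr 1
  refine Finset.sum_congr rfl fun s _ => ?_
  congr 1
  have h1 : ∑ g ∈ Fintype.piFinset (fun _ : κ × Fin m => s),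
      ∏ t, (Matrix.of fun k => v (g (t, k))).det ^ 2 =
      ∑ h ∈ Fintype.piFinset (fun _ : κ => Fintype.piFinset (fun _ : Fin m => s)),
        ∏ t, (Matrix.of fun k => v (h t k)).det ^ 2 := by
    refine Finset.sum_bij' (fun g _ => fun t k => g (t, k)) (fun h _ => fun i => h i.1 i.2)
      ?_ ?_ ?_ ?_ ?_
    · intro g hg
      simp only [Fintype.mem_piFinset] at hg ⊢
      intro t k
      exact hg (t, k)
    · intro h hh
      simp only [Fintype.mem_piFinset] at hh ⊢
      intro i
      exact hh i.1 i.2
    · intro g _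
      rfl
    · intro h _
      rfl
    · intro g _
      rfl
  rw [h1]
  refine (Finset.prod_univ_sum (fun _ : κ => Fintype.piFinset (fun _ : Fin m => s))
    (fun _ u => (Matrix.of fun k => v (u k)).det ^ 2)).symm.trans ?_
  simp only [sum_det_sq]
  rw [Finset.prod_const, Finset.card_univ]
  congr 3
  ext a b
  simp [Finset.sum_apply]

end Pool.Agent.Y500.POT
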