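import Pool.Agent.Y500.POT.Comb

/-!
The nine integer vectors and the two numbers attached to them.
-/

set_option autoImplicit false

namespace Pool.Agent.Y500.POT

open Finset Equiv

/-- the index set -/
abbrev I9 : Type := Fin 3 × Fin 3

/-- nine integer vectors in space -/
def vz (i : I9) : Fin 3 → ℤ :=
  match i with
  | (0, 0) => ![1, 0, 0]
  | (0, 1) => ![0, 1, 0]
  | (0, 2) => ![0, 1, 3]
  | (1, 0) => ![3, -3, 1]
  | (1, 1) => ![-3, -3, 1]
  | (1, 2) => ![3, 3, 2]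
  | (2, 0) => ![-3, 3, 2]
  | (2, 1) => ![1, 1, -3]
  | (2, 2) => ![-1, 1, -3]

/-- the list of the indices -/
def l9 : List I9 := [(0, 0), (0, 1), (0, 2), (1, 0), (1, 1), (1, 2), (2, 0), (2, 1), (2, 2)]

theorem l9_nodup : l9.Nodup := by decide

theorem l9_univ : l9.toFinset = univ := by decide

/-- the product of the nine linear forms -/
def L1 (x : Fin 3 → ℤ) : ℤ :=
  x 0 * (x 1 * ((x 1 + 3 * x 2) * ((3 * x 0 - 3 * x 1 + x 2) * ((-3 * x 0 - 3 * x 1 + x 2) *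
    ((3 * x 0 + 3 * x 1 + 2 * x 2) * ((-3 * x 0 + 3 * x 1 + 2 * x 2) *
    ((x 0 + x 1 - 3 * x 2) * (-x 0 + x 1 - 3 * x 2))))))))

theorem L1_eq : (fun x : Fin 3 → ℤ => ∏ i, ∑ a, vz i a * x a) = L1 := by
  funext x
  rw [Fintype.prod_prod_type]
  simp only [Fin.prod_univ_three, Fin.sum_univ_three, vz, L1]
  simp
  ring

theorem rec1 : recL vz L1 l9 0 = -15946775424 := by decide +kernel

theorem perm_val : (Matrix.of fun i j => ∑ a, vz i a * vz j a).permanent = 15946775424 := by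
  rw [perm_gram vz l9 l9_nodup l9_univ, L1_eq, rec1]
  simp

/-- the cube of six times the determinant -/
def L2 (x : Fin 3 → Fin 3 → ℤ) : ℤ :=
  (6 * (x 0 0 * x 1 1 * x 2 2 - x 0 0 * x 1 2 * x 2 1 - x 0 1 * x 1 0 * x 2 2 +
    x 0 1 * x 1 2 * x 2 0 + x 0 2 * x 1 0 * x 2 1 - x 0 2 * x 1 1 * x 2 0)) ^ 3

theorem L2_eq : (fun x : Fin 3 → Fin 3 → ℤ =>
    ((Nat.factorial 3 : ℕ) * (Matrix.of x).det) ^ Fintype.card (Fin 3)) = L2 := by
  funext x
  rw [Matrix.det_fin_three]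
  simp [L2, Nat.factorial]

theorem rec2 : recL (fun i => (fun a b => vz i a * vz i b : Fin 3 → Fin 3 → ℤ)) L2 l9 0 =
    -3509718128640 := by decide +kernel

theorem block_val : ∑ τ : Perm I9, ∏ t, (Matrix.of fun k => vz (τ (t, k))).det ^ 2 =
    3509718128640 := by
  rw [sum_block vz l9 l9_nodup l9_univ, L2_eq, rec2]
  simp

end Pool.Agent.Y500.POT
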