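import Pool.Agent.Y500.POT.Num

/-!
The Schur power matrix of a Gram matrix of rank three: a lower bound for its quadratic form.
-/

set_option autoImplicit false

namespace Pool.Agent.Y500.POT

open Finset Equiv

/-- the Levi-Civita symbol -/
def lc (u : Fin 3 → Fin 3) : ℤ := ∑ σ : Perm (Fin 3), if (σ : Fin 3 → Fin 3) = u then (Perm.sign σ : ℤ) else 0

theorem lc_sq : ∑ u : Fin 3 → Fin 3, lc u ^ 2 = 6 := by decide +kernel

theorem lc_det (x : Fin 3 → Fin 3 → ℝ) :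
    ∑ u : Fin 3 → Fin 3, (lc u : ℝ) * ∏ k, x k (u k) = (Matrix.of x).det := by
  rw [← Matrix.det_transpose, Matrix.det_apply']
  unfold lc
  push_cast
  simp only [Finset.sum_mul]
  rw [Finset.sum_comm]
  refine Finset.sum_congr rfl fun σ _ => ?_
  rw [Finset.sum_eq_single (σ : Fin 3 → Fin 3)]
  · simp
  · intro b _ hb
    rw [if_neg (fun h => hb h.symm), zero_mul]
  · intro h
    exact absurd (Finset.mem_univ _) h

variable {κ : Type*} [Fintype κ] [DecidableEq κ]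

/-- the product of the block determinants -/
noncomputable def ff (V : κ × Fin 3 → Fin 3 → ℝ) (τ : Perm (κ × Fin 3)) : ℝ :=
  ∏ t, (Matrix.of fun k => V (τ (t, k))).det

/-- the product of Levi-Civita symbols -/
noncomputable def EE (j : κ × Fin 3 → Fin 3) : ℝ := ∏ t, (lc (fun k => j (t, k)) : ℝ)

/-- sums over functions on a product -/
theorem sum_curry (F : κ → (Fin 3 → Fin 3) → ℝ) :
    ∑ j : κ × Fin 3 → Fin 3, ∏ t, F t (fun k => j (t, k)) = ∏ t, ∑ u : Fin 3 → Fin 3, F t u := by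
  rw [Finset.prod_univ_sum, Fintype.piFinset_univ]
  refine Finset.sum_bij' (fun j _ => fun t k => j (t, k)) (fun h _ => fun i => h i.1 i.2)
    ?_ ?_ ?_ ?_ ?_
  · intro _ _; exact Finset.mem_univ _
  · intro _ _; exact Finset.mem_univ _
  · intro _ _; rfl
  · intro _ _; rfl
  · intro _ _; rfl

theorem EE_sq : ∑ j : κ × Fin 3 → Fin 3, EE j ^ 2 = 6 ^ Fintype.card κ := by
  have h1 : ∀ j : κ × Fin 3 → Fin 3, EE j ^ 2 =
      ∏ t, (fun (_ : κ) (u : Fin 3 → Fin 3) => (lc u : ℝ) ^ 2) t (fun k => j (t, k)) := by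
    intro j
    rw [EE, Finset.prod_pow]
  simp only [h1]
  rw [sum_curry (fun (_ : κ) (u : Fin 3 → Fin 3) => (lc u : ℝ) ^ 2)]
  have h2 : ∑ u : Fin 3 → Fin 3, (lc u : ℝ) ^ 2 = 6 := by
    have := congrArg (fun z : ℤ => (z : ℝ)) lc_sq
    push_cast at this
    exact this
  rw [h2, Finset.prod_const, Finset.card_univ]

theorem EE_ff (V : κ × Fin 3 → Fin 3 → ℝ) (τ : Perm (κ × Fin 3)) :
    ∑ j : κ × Fin 3 → Fin 3, EE j * ∏ i, V (τ i) (j i) = ff V τ := by
  have h1 : ∀ j : κ × Fin 3 → Fin 3, EE j * ∏ i, V (τ i) (j i) =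
      ∏ t, (fun (t : κ) (u : Fin 3 → Fin 3) => (lc u : ℝ) * ∏ k, V (τ (t, k)) (u k)) t
        (fun k => j (t, k)) := by
    intro j
    rw [EE, Fintype.prod_prod_type, ← Finset.prod_mul_distrib]
  simp only [h1]
  rw [sum_curry (fun (t : κ) (u : Fin 3 → Fin 3) => (lc u : ℝ) * ∏ k, V (τ (t, k)) (u k))]
  unfold ff
  refine Finset.prod_congr rfl fun t _ => ?_
  exact lc_det fun k => V (τ (t, k))

/-- the quadratic form of the Schur power matrix as a sum of squares -/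
theorem form_eq {ι : Type*} [Fintype ι] [DecidableEq ι] (V : ι → Fin 3 → ℝ) (f : Perm ι → ℝ) :
    ∑ σ : Perm ι, ∑ τ : Perm ι, f σ * f τ * ∏ i, ∑ a, V (σ i) a * V (τ i) a =
      ∑ j : ι → Fin 3, (∑ τ : Perm ι, f τ * ∏ i, V (τ i) (j i)) ^ 2 := by
  have h1 : ∀ σ τ : Perm ι, f σ * f τ * ∏ i, ∑ a, V (σ i) a * V (τ i) a =
      ∑ j : ι → Fin 3, (f σ * ∏ i, V (σ i) (j i)) * (f τ * ∏ i, V (τ i) (j i)) := by
    intro σ τ
    rw [Finset.prod_univ_sum, Fintype.piFinset_univ, Finset.mul_sum]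
    refine Finset.sum_congr rfl fun j _ => ?_
    rw [Finset.prod_mul_distrib]
    ring
  have h2 : ∀ j : ι → Fin 3, (∑ τ : Perm ι, f τ * ∏ i, V (τ i) (j i)) ^ 2 =
      ∑ σ : Perm ι, ∑ τ : Perm ι, (f σ * ∏ i, V (σ i) (j i)) * (f τ * ∏ i, V (τ i) (j i)) := by
    intro j
    rw [pow_two, Finset.sum_mul_sum]
  simp only [h1, h2]
  rw [Finset.sum_comm]
  have h3 : ∀ τ : Perm ι, ∑ σ : Perm ι, ∑ j : ι → Fin 3,
      (f σ * ∏ i, V (σ i) (j i)) * (f τ * ∏ i, V (τ i) (j i)) =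
      ∑ j : ι → Fin 3, ∑ σ : Perm ι,
      (f σ * ∏ i, V (σ i) (j i)) * (f τ * ∏ i, V (τ i) (j i)) := fun τ => Finset.sum_comm
  simp only [h3]
  rw [Finset.sum_comm]
  refine Finset.sum_congr rfl fun j _ => ?_
  rw [Finset.sum_comm]

/-- the Rayleigh quotient of the product of the block determinants -/
theorem rayleigh (V : κ × Fin 3 → Fin 3 → ℝ) :
    (∑ τ : Perm (κ × Fin 3), ff V τ ^ 2) ^ 2 ≤ 6 ^ Fintype.card κ *
      ∑ σ : Perm (κ × Fin 3), ∑ τ : Perm (κ × Fin 3), ff V σ * ff V τ *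
        ∏ i, ∑ a, V (σ i) a * V (τ i) a := by
  rw [form_eq, ← EE_sq (κ := κ)]
  have h1 : ∑ τ : Perm (κ × Fin 3), ff V τ ^ 2 =
      ∑ j : κ × Fin 3 → Fin 3, EE j * ∑ τ : Perm (κ × Fin 3), ff V τ * ∏ i, V (τ i) (j i) := by
    simp only [Finset.mul_sum]
    rw [Finset.sum_comm]
    refine Finset.sum_congr rfl fun τ _ => ?_
    rw [pow_two]
    nth_rewrite 2 [← EE_ff V τ]
    rw [Finset.mul_sum]
    refine Finset.sum_congr rfl fun j _ => ?_
    ring
  rw [h1]
  exact Finset.sum_mul_sq_le_sq_mul_sq _ _ _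

/-- the nine vectors with real coordinates -/
noncomputable def vr (i : I9) (a : Fin 3) : ℝ := (vz i a : ℝ)

/-- the Gram matrix -/
noncomputable def A9 : Matrix I9 I9 ℝ := Matrix.of fun i j => ∑ a, vr i a * vr j a

theorem A9_perm : A9.permanent = 15946775424 := by
  have h := congrArg (fun z : ℤ => (z : ℝ)) perm_val
  simp only [Matrix.permanent, Matrix.of_apply] at h
  push_cast at h
  simpa [A9, Matrix.permanent, vr] using h

theorem ff_sum : ∑ τ : Perm I9, ff vr τ ^ 2 = 3509718128640 := by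
  have h := congrArg (fun z : ℤ => (z : ℝ)) block_val
  push_cast at h
  rw [← h]
  refine Finset.sum_congr rfl fun τ _ => ?_
  rw [ff, ← Finset.prod_pow]
  refine Finset.prod_congr rfl fun t _ => ?_
  congr 1

/-- the quadratic form of the Schur power matrix exceeds `per A` times the square of the norm -/
theorem viol9 : A9.permanent * ∑ τ : Perm I9, ff vr τ ^ 2 <
    ∑ σ : Perm I9, ∑ τ : Perm I9, ff vr σ * ff vr τ * ∏ i, A9 (σ i) (τ i) := by
  have h := rayleigh (κ := Fin 3) vr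
  simp only [A9, Matrix.of_apply] at *
  have hp := A9_perm
  simp only [A9] at hp
  rw [hp]
  rw [ff_sum] at h ⊢
  simp only [Fintype.card_fin] at h
  nlinarith

end Pool.Agent.Y500.POT
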